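import Pool.Agent.H741.RS.Stm

/-!
Project RS, S_KG: facts on the separation property.
-/

set_option autoImplicit false
open scoped ComplexConjugate

namespace Pool.Agent.H903.RS

open Pool.Agent.H741.RS

/-- a unitary map which is different from all elements of a finite group is separated from them at a point -/
theorem exists_pt {n : ℕ} (G : Subgroup (V n ≃ₗᵢ[ℂ] V n)) [Fintype G] (U : V n ≃ₗᵢ[ℂ] V n) (hU : U ∉ G) :
    ∃ z : V n, ∀ g : G, U z ≠ g.1 z := by
  by_contra hc
  push Not at hc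
  have hcov : ⋃ g : G, ((LinearMap.ker ((U.toLinearEquiv : V n →ₗ[ℂ] V n) - (g.1.toLinearEquiv : V n →ₗ[ℂ] V n)) : Submodule ℂ (V n)) : Set (V n)) = Set.univ := by
    rw [Set.eq_univ_iff_forall]
    intro z
    obtain ⟨g, hg⟩ := hc z
    rw [Set.mem_iUnion]
    refine ⟨g, ?_⟩
    rw [SetLike.mem_coe, LinearMap.mem_ker, LinearMap.sub_apply, sub_eq_zero]
    exact hg
  obtain ⟨g, hg⟩ := Subspace.exists_eq_top_of_iUnion_eq_univ hcov
  apply hU
  have h1 : U = g.1 := by
    ext1 z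
    have h2 : z ∈ LinearMap.ker ((U.toLinearEquiv : V n →ₗ[ℂ] V n) - (g.1.toLinearEquiv : V n →ₗ[ℂ] V n)) := by
      rw [hg]
      exact Submodule.mem_top
    rw [LinearMap.mem_ker, LinearMap.sub_apply, sub_eq_zero] at h2
    exact h2
  rw [h1]
  exact g.2

theorem sep_card {n : ℕ} (G : Subgroup (V n ≃ₗᵢ[ℂ] V n)) [Fintype G] : Sep (Fintype.card G) G := by
  intro U hU
  obtain ⟨c, hc⟩ := hU
  by_contra hUG
  obtain ⟨z, hz⟩ := exists_pt G U hUG
  have hi : ∀ g : G, ∃ i : Fin n, (U z) i ≠ (g.1 z) i := by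
    intro g
    by_contra h
    push Not at h
    apply hz g
    ext i
    exact h i
  choose i hi using hi
  set P : MvPolynomial (Fin n) ℂ := ∏ g : G, (MvPolynomial.X (i g) - MvPolynomial.C ((g.1 z) (i g))) with hP
  have hdeg : P.totalDegree ≤ Fintype.card G := by
    refine (MvPolynomial.totalDegree_finsetProd _ _).trans ?_
    calc ∑ g : G, (MvPolynomial.X (i g) - MvPolynomial.C ((g.1 z) (i g)) : MvPolynomial (Fin n) ℂ).totalDegree ≤ ∑ _g : G, 1 := by
          apply Finset.sum_le_sum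
          intro g _
          refine (MvPolynomial.totalDegree_sub_C_le _ _).trans ?_
          rw [MvPolynomial.totalDegree_X]
      _ = Fintype.card G := by simp
  have h1 := hc P hdeg z
  have h2 : ∀ g : G, ev P (g.1 z) = 0 := by
    intro g
    rw [hP, ev, map_prod]
    apply Finset.prod_eq_zero (Finset.mem_univ g)
    simp
  have h3 : ev P (U z) ≠ 0 := by
    rw [hP, ev, map_prod]
    rw [Finset.prod_ne_zero_iff]
    intro g _
    simp only [map_sub, MvPolynomial.eval_X, MvPolynomial.eval_C]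
    exact sub_ne_zero.2 (hi g)
  apply h3
  rw [h1]
  apply Finset.sum_eq_zero
  intro g _
  rw [h2, mul_zero]

/-- scalar maps -/
noncomputable def sc (n : ℕ) (a : ℂ) (ha : ‖a‖ = 1) : V n ≃ₗᵢ[ℂ] V n :=
  { LinearEquiv.smulOfNeZero ℂ (V n) a (by
      intro h
      rw [h, norm_zero] at ha
      exact zero_ne_one ha) with
    norm_map' := by
      intro x
      change ‖a • x‖ = ‖x‖
      rw [norm_smul, ha, one_mul] }

theorem sc_apply (n : ℕ) (a : ℂ) (ha : ‖a‖ = 1) (z : V n) : sc n a ha z = a • z := rfl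

/-- a sequence on the unit circle -/
noncomputable def uc (j : ℕ) : ℂ := ⟨1 / ((j : ℝ) + 1), Real.sqrt (1 - (1 / ((j : ℝ) + 1)) ^ 2)⟩

theorem uc_norm (j : ℕ) : ‖uc j‖ = 1 := by
  have h1 : Complex.normSq (uc j) = 1 := by
    rw [Complex.normSq_apply]
    simp only [uc]
    have h2 : (1 / ((j : ℝ) + 1)) ^ 2 ≤ 1 := by
      apply pow_le_one₀ (by positivity)
      rw [div_le_one (by positivity)]
      have : (0:ℝ) ≤ j := Nat.cast_nonneg j
      linarith
    rw [Real.mul_self_sqrt (by linarith)]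
    ring
  rw [Complex.norm_def, h1, Real.sqrt_one]

theorem uc_inj {i j : ℕ} (h : uc i = uc j) : i = j := by
  have h1 : (uc i).re = (uc j).re := by rw [h]
  simp only [uc] at h1
  have h2 : (i : ℝ) + 1 = (j : ℝ) + 1 := by
    have h3 : (0:ℝ) < (i : ℝ) + 1 := by positivity
    have h4 : (0:ℝ) < (j : ℝ) + 1 := by positivity
    rw [div_eq_div_iff h3.ne' h4.ne'] at h1
    linarith
  have h3 : (i : ℝ) = j := by linarith
  exact_mod_cast h3

theorem not_sep_zero {n : ℕ} (hn : 1 ≤ n) (G : Subgroup (V n ≃ₗᵢ[ℂ] V n)) [Fintype G] : ¬ Sep 0 G := by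
  classical
  intro h
  have h1 : ∀ U : V n ≃ₗᵢ[ℂ] V n, U ∈ G := by
    intro U
    refine h U ⟨Pi.single 1 1, ?_⟩
    intro P hP z
    have h2 : P.totalDegree = 0 := Nat.le_zero.1 hP
    rw [MvPolynomial.totalDegree_eq_zero_iff_eq_C] at h2
    have h3 : ∀ w : V n, ev P w = MvPolynomial.coeff 0 P := by
      intro w
      rw [ev, h2]
      simp
    rw [h3]
    simp only [h3]
    rw [← Finset.sum_mul]
    simp
  have h2 : Function.Injective (fun j : ℕ => (⟨sc n (uc j) (uc_norm j), h1 _⟩ : G)) := by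
    intro i j hij
    simp only [Subtype.mk.injEq] at hij
    have h3 : sc n (uc i) (uc_norm i) (EuclideanSpace.single ⟨0, hn⟩ 1) = sc n (uc j) (uc_norm j) (EuclideanSpace.single ⟨0, hn⟩ 1) := by
      rw [hij]
    rw [sc_apply, sc_apply] at h3
    have h4 : (uc i • (EuclideanSpace.single (⟨0, hn⟩ : Fin n) (1 : ℂ))) ⟨0, hn⟩ = (uc j • (EuclideanSpace.single (⟨0, hn⟩ : Fin n) (1 : ℂ))) ⟨0, hn⟩ := by
      rw [h3]
    simp at h4
    exact uc_inj h4
  exact not_injective_infinite_finite _ h2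

/-- **S_KG** -/
theorem t_KG : S_KG := by
  intro n G hG hn
  refine ⟨sep_card G, ?_, not_sep_zero hn G⟩
  intro k hk U hU
  obtain ⟨c, hc⟩ := hU
  exact hk U ⟨c, fun P hP z => hc P (hP.trans (Nat.le_succ k)) z⟩

end Pool.Agent.H903.RS
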